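import Pool.Agent.MP_34d7b7_lc.H57.Inst
import Pool.Agent.Shared.H68.MRDP

/-!
Satisfiability of regular word equations with length constraints is undecidable over every
alphabet with at least two letters.
-/

namespace Pool.Agent.Results.MP_34d7b7_lc.Undecidable

open Pool.Agent.MP_34d7b7_lc.H57

theorem result {A : Type} [Primcodable A] [Nontrivial A] :
    ¬ ∃ f : (List (ℕ ⊕ A) × List (ℕ ⊕ A)) × List (List (ℤ × ℕ) × ℤ × Bool) → Bool,
      Computable f ∧
      ∀ (U V : List (ℕ ⊕ A)) (cs : List (List (ℤ × ℕ) × ℤ × Bool)),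
        (vars U).Nodup → (vars V).Nodup →
        (∀ C ∈ cs, ∀ q ∈ C.1, q.2 ∈ vars U ∨ q.2 ∈ vars V) →
        (f ((U, V), cs) = true ↔
          ∃ h : ℕ → List A, subst h U = subst h V ∧ ∀ C ∈ cs, Holds h C) := by
  rintro ⟨f, hf, H⟩
  obtain ⟨a, b, hab⟩ := exists_pair_ne A
  have hre : REPred fun m : ℕ =>
      ((Denumerable.ofNat Nat.Partrec.Code m).eval 0).Dom :=
    Partrec.comp (ComputablePred.halting_problem_re 0) (Computable.ofNat _)
  obtain ⟨x0, U, V, cs, hU, hV, h0, hc, e⟩ :=
    RL.inst (p := fun m : ℕ => ((Denumerable.ofNat Nat.Partrec.Code m).eval 0).Dom)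
      (RL.of_dioph (Pool.Agent.Shared.H68.mrdp _ hre)) hab
  refine ComputablePred.halting_problem 0 (ComputablePred.computable_iff.2
    ⟨fun c => f ((U, V), ([(1, x0)], ((Encodable.encode c : ℕ) : ℤ), true) :: cs), ?_, ?_⟩)
  · have hcast : Computable fun n : ℕ => (n : ℤ) := by
      have h2 : Primrec fun n : ℕ => Denumerable.ofNat ℤ (2 * n) :=
        (Primrec.ofNat ℤ).comp (Primrec.nat_mul.comp (Primrec.const 2) Primrec.id)
      refine h2.to_comp.of_eq fun n => ?_
      have : Encodable.encode (n : ℤ) = 2 * n := rfl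
      rw [← this, Denumerable.ofNat_encode]
    exact hf.comp ((Computable.const _).pair (Computable.list_cons.comp
      ((Computable.const _).pair ((hcast.comp Computable.encode).pair (Computable.const _)))
      (Computable.const _)))
  · funext c
    apply propext
    have e1 := e (Encodable.encode c)
    rw [Denumerable.ofNat_encode] at e1
    rw [H U V _ hU hV (by
      rw [List.forall_mem_cons]
      exact ⟨by simpa using h0, hc⟩)]
    refine e1.trans (exists_congr fun h => and_congr_right fun _ => ?_)
    rw [List.forall_mem_cons]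
    refine and_congr_left fun _ => ?_
    simp [Holds, linVal]

end Pool.Agent.Results.MP_34d7b7_lc.Undecidable
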